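import Pool.Agent.H482R3.EA.Stm

set_option autoImplicit false

/-! Project EA (helper482), task UPM: unfolding of `up`. -/

namespace Pool.Agent.H700R2.EA.UPM

open Pool.Agent.H482R3.EA Pool.Agent.H482R3.EA.NF

theorem t_UPN : S_UPN := by
  intro S h l y hn
  cases h with
  | one => rw [up]
  | pt h p n =>
    rw [up]
    refine dif_neg ?_
    rintro ⟨q, m, h1, h2, h3⟩
    exact hn q h1 ⟨m, h2, h3⟩
  | ln h m t =>
    rw [up]
    refine dif_neg ?_
    rintro ⟨q, h1, h2⟩
    exact hn q h1 h2

theorem t_ACTN : S_ACTN := by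
  intro S h l y hn
  cases h with
  | one => rw [act]
  | pt h p n =>
    rw [act]
    exact if_neg hn
  | ln h m t =>
    rw [act]
    exact dif_neg (fun e => hn e.symm)

theorem t_UPM (hU : S_UNI) : S_UPM := by
  intro S h l y q m hl hql hqN hm hqm
  cases h with
  | one => exact absurd hqN (fun h => h)
  | pt h p n =>
    have H : ∃ (q : S.P) (m : S.Ln), S.I q l ∧ S.I p m ∧ S.I q m := by
      obtain ⟨m', h1, h2⟩ := hqN
      exact ⟨q, m', hql, h1, h2⟩
    have key : ∀ (q' : S.P) (m' : S.Ln), S.I q' l → S.I p m' → S.I q' m' →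
        attM (fun a => up h m' (S.x m' p ^ n * S.x m' q' ^ a)) q' l y =
          attM (fun a => act (.pt h p n) m (S.x m q ^ a)) q l y := by
      intro q' m' h1 h2 h3
      have e1 : q' = q := hU S (st (.pt h p n)) l q' q hl h1 ⟨m', h2, h3⟩ hql hqN
      subst e1
      have hpq : p ≠ q' := by
        intro e
        subst e
        exact hl hql
      have e2 : m' = m := by
        by_contra hne
        exact hpq (S.G1 m' m p q' hne h2 h3 hm hqm)
      subst e2
      congr 1
      funext a
      rw [act]
      exact (if_pos h2).symm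
    rw [up]
    refine (dif_pos H).trans ?_
    exact key _ _ H.choose_spec.choose_spec.1 H.choose_spec.choose_spec.2.1
      H.choose_spec.choose_spec.2.2
  | ln h m' t =>
    have e : m = m' := hm
    subst e
    have H : ∃ q : S.P, S.I q l ∧ S.I q m := ⟨q, hql, hqm⟩
    have key : ∀ (q' : S.P), S.I q' l → S.I q' m →
        attM (fun a => up h m (t * S.x m q' ^ a)) q' l y =
          attM (fun a => act (.ln h m t) m (S.x m q ^ a)) q l y := by
      intro q' h1 h2
      have e1 : q' = q := hU S (st (.ln h m t)) l q' q hl h1 h2 hql hqN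
      subst e1
      congr 1
      funext a
      rw [act]
      beta_reduce
      rw [dif_pos rfl]
    rw [up]
    refine (dif_pos H).trans ?_
    exact key _ H.choose_spec.1 H.choose_spec.2

end Pool.Agent.H700R2.EA.UPM
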